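import Mathlib
import Pool.Agent.N61.SG.Fin

/-!
# The soluble graph of `A_p` when `p - 1` has no small odd prime divisor
-/

set_option autoImplicit false

namespace Pool.Agent.Results.MP_cff1c1_al.LargeFactors

open Pool.Agent.N61.SG

/-- If `p ≥ 2 ^ 14` is a prime with `p ≡ 3 mod 4` and every odd prime divisor of `p - 1` exceeds
`64`, then `A_p` has trivial soluble radical and its soluble graph has diameter at least `4`; there
are infinitely many such primes. -/
theorem result :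
    (∀ p : ℕ, p.Prime → 2 ^ 14 ≤ p → p % 4 = 3 →
      (∀ q : ℕ, q.Prime → q ∣ p - 1 → q = 2 ∨ 64 < q) →
      solRad (alternatingGroup (Fin p)) = ⊥ ∧
        4 ≤ (solGraph (alternatingGroup (Fin p))).ediam) ∧
    {p : ℕ | p.Prime ∧ 2 ^ 14 ≤ p ∧ p % 4 = 3 ∧
      ∀ q : ℕ, q.Prime → q ∣ p - 1 → q = 2 ∨ 64 < q}.Infinite := by
  refine ⟨fun p h1 h2 h3 h4 => (main_fin h1 h2 h3 h4).2, ?_⟩
  rw [Set.infinite_iff_exists_gt]
  intro N
  obtain ⟨p, h1, h2⟩ := exists_prime N
  exact ⟨p, h2, h1⟩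

end Pool.Agent.Results.MP_cff1c1_al.LargeFactors
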